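import Pool.Agent.H585Z.LF.FinRep

set_option autoImplicit false

namespace Pool.Agent.Results.MP_3ede0b_an.ANotSuperWSC

open Pool.Agent.H585Z.LF

/-- **Q1 has a negative answer**: for every infinite-dimensional space the free space fails the
super property, and `ℓ₂` is an infinite-dimensional superreflexive space. -/
theorem result :
    (∀ (X : Type) [NormedAddCommGroup X] [NormedSpace ℝ X], ¬ FiniteDimensional ℝ X →
      ¬ FreeHas (Super WSC) (0 : X)) ∧
    Super Refl (lp (fun _ : ℕ => ℝ) 2) ∧ ¬ FiniteDimensional ℝ (lp (fun _ : ℕ => ℝ) 2) :=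
  ⟨fun _ _ _ hX => free_not_super hX _ _ not_wsc, super_refl_hilbert _, l2_infinite⟩

end Pool.Agent.Results.MP_3ede0b_an.ANotSuperWSC
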